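import Pool.Agent.Helper26.LU.Goals

/-!
# Project LU (MP_db6300_gt): E0, structure of `Ph`
-/

set_option autoImplicit false
set_option linter.unusedSectionVars false

namespace Pool.Agent.Helper30.LU

open Matrix Pool.Agent.Helper26.LU

section nat

variable {A A' : Type} [CommRing A] [CommRing A'] [Algebra ℝ A] [Algebra ℝ A'] {N : ℕ}

theorem mon_map (φ : A →+* A') (t : Idx N) (x : Fin 3 → A) :
    φ (mon t x) = mon t fun i => φ (x i) := by
  simp [mon]

theorem ev_map (φ : A →+* A') (a : Idx N → A) (x : Fin 3 → A) :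
    φ (ev a x) = ev (fun α => φ (a α)) fun i => φ (x i) := by
  simp [ev, mon_map]

theorem mulVec_map (φ : A →+* A') (hφ : ∀ c : ℝ, φ (algebraMap ℝ A c) = algebraMap ℝ A' c)
    (X : Matrix (Fin 3) (Fin 3) A) (j : Fin 4) (i : Fin 3) :
    φ ((X *ᵥ eA A j) i) = (X.map φ *ᵥ eA A' j) i := by
  simp [Matrix.mulVec, dotProduct, eA, hφ]

theorem Ti_map (φ : A →+* A') (hφ : ∀ c : ℝ, φ (algebraMap ℝ A c) = algebraMap ℝ A' c)
    (a : Idx N → A) (X : Matrix (Fin 3) (Fin 3) A) (k : ℕ) (i : Fin 3) :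
    φ (Ti a X k i) = Ti (fun α => φ (a α)) (X.map φ) k i := by
  induction k generalizing i with
  | zero => simp [Ti]
  | succ k ih =>
    simp only [Ti, map_mul, map_sum, hφ, ev_map, mulVec_map φ hφ, Pi.add_apply, map_add, ih]
    rfl

theorem Fv_map (φ : A →+* A') (hφ : ∀ c : ℝ, φ (algebraMap ℝ A c) = algebraMap ℝ A' c)
    (M : ℕ) (a : Idx N → A) (X : Matrix (Fin 3) (Fin 3) A) (j : Fin 4) :
    φ (Fv M a X j) = Fv M (fun α => φ (a α)) (X.map φ) j := by
  simp only [Fv, ev_map, mulVec_map φ hφ, Pi.add_apply, map_add, Ti_map φ hφ]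
  rfl

theorem Ph_map (φ : A →+* A') (hφ : ∀ c : ℝ, φ (algebraMap ℝ A c) = algebraMap ℝ A' c)
    (M : ℕ) (a : Idx N → A) (X : Matrix (Fin 3) (Fin 3) A) :
    φ (Ph M a X) = Ph M (fun α => φ (a α)) (X.map φ) := by
  simp only [Ph, map_sub, map_mul, map_sum, map_pow, hφ, Fv_map φ hφ, map_ofNat]

theorem mon_smul (s : A) (t : Idx N) (x : Fin 3 → A) : mon t (s • x) = s ^ dg t * mon t x := by
  simp only [mon, Pi.smul_apply, smul_eq_mul, dg, mul_pow, pow_add]
  ring

theorem ev_scale (s : A) (a : Idx N → A) (x : Fin 3 → A) :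
    ev (fun α => s ^ dg α * a α) x = ev a (s • x) := by
  simp only [ev, mon_smul]
  exact Finset.sum_congr rfl fun t _ => by ring

theorem Ti_scale (s : A) (a : Idx N → A) (X : Matrix (Fin 3) (Fin 3) A) (k : ℕ) :
    s • Ti (fun α => s ^ dg α * a α) X k = Ti a (s • X) k := by
  induction k with
  | zero => simp [Ti]
  | succ k ih =>
    ext i
    simp only [Ti, ev_scale, smul_add, ih, Pi.smul_apply, smul_eq_mul, Matrix.smul_mulVec,
      Finset.mul_sum]
    exact Finset.sum_congr rfl fun t _ => by ring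

theorem Fv_scale (s : A) (M : ℕ) (a : Idx N → A) (X : Matrix (Fin 3) (Fin 3) A) (j : Fin 4) :
    Fv M (fun α => s ^ dg α * a α) X j = Fv M a (s • X) j := by
  simp only [Fv, ev_scale, smul_add, Ti_scale, Matrix.smul_mulVec]

theorem Ph_scale (s : A) (M : ℕ) (a : Idx N → A) (X : Matrix (Fin 3) (Fin 3) A) :
    Ph M (fun α => s ^ dg α * a α) X = Ph M a (s • X) := by
  simp only [Ph, Fv_scale]

end nat

theorem eval_hom {σ R B : Type} [CommRing R] [CommRing B] (f : R →+* B) (x : σ → B) (s : B)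
    (P : MvPolynomial σ R) (d : ℕ) (hP : P.IsHomogeneous d) :
    MvPolynomial.eval₂ f (fun i => s * x i) P = s ^ d * MvPolynomial.eval₂ f x P := by
  rw [MvPolynomial.eval₂_eq, MvPolynomial.eval₂_eq, Finset.mul_sum]
  refine Finset.sum_congr rfl fun m hm => ?_
  have h1 : m.degree = d := by
    have := hP (MvPolynomial.mem_support_iff.1 hm)
    rw [Finsupp.degree_eq_weight_one]
    exact this
  simp only [mul_pow, Finset.prod_mul_distrib, Finset.prod_pow_eq_pow_sum]
  rw [← h1, Finsupp.degree_apply]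
  ring

/-- The generic expression. -/
noncomputable def Gn (N M : ℕ) : MvPolynomial (Fin 3 × Fin 3) (MvPolynomial (Idx N) ℝ) :=
  Ph M (fun α => MvPolynomial.C (MvPolynomial.X α)) (fun i k => MvPolynomial.X (i, k))

/-- Its components. -/
noncomputable def Gam (N M d : ℕ) (b : Idx N → ℝ) : MvPolynomial (Fin 3 × Fin 3) ℝ :=
  MvPolynomial.map (MvPolynomial.eval b) (MvPolynomial.homogeneousComponent d (Gn N M))

theorem key (N M : ℕ) (B : Type) [CommRing B] [Algebra ℝ B] (b : Idx N → ℝ)
    (Y : Matrix (Fin 3) (Fin 3) B) (s : B) :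
    Ph M (fun α => algebraMap ℝ B (b α)) (s • Y) =
      ∑ d ∈ Finset.range ((Gn N M).totalDegree + 1),
        s ^ d * MvPolynomial.eval₂ (algebraMap ℝ B) (fun ij => Y ij.1 ij.2) (Gam N M d b) := by
  set φ : MvPolynomial (Fin 3 × Fin 3) (MvPolynomial (Idx N) ℝ) →+* B :=
    MvPolynomial.eval₂Hom ((algebraMap ℝ B).comp (MvPolynomial.eval b))
      (fun ij => s * Y ij.1 ij.2) with hφ
  have h1 : ∀ c : ℝ, φ (algebraMap ℝ _ c) = algebraMap ℝ B c := by
    intro c
    rw [hφ, MvPolynomial.algebraMap_apply, MvPolynomial.coe_eval₂Hom, MvPolynomial.eval₂_C,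
      MvPolynomial.algebraMap_apply]
    simp
  have h2 : φ (Gn N M) = Ph M (fun α => algebraMap ℝ B (b α)) (s • Y) := by
    rw [Gn, Ph_map φ h1]
    congr 1
    · funext α
      simp [hφ]
    · ext i k
      simp [hφ]
  rw [← h2]
  conv_lhs => rw [← MvPolynomial.sum_homogeneousComponent (Gn N M)]
  rw [map_sum]
  refine Finset.sum_congr rfl fun d _ => ?_
  rw [hφ, MvPolynomial.coe_eval₂Hom,
    eval_hom _ _ s _ d (MvPolynomial.homogeneousComponent_isHomogeneous d _), Gam,
    MvPolynomial.eval₂_map]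

theorem gE0 : G_E0 := by
  intro N M
  refine ⟨(Gn N M).totalDegree, Gam N M, ?_, ?_, ?_, ?_, ?_⟩
  · intro d b
    exact (MvPolynomial.homogeneousComponent_isHomogeneous d _).map _
  · intro d b hd
    rw [Gam, MvPolynomial.homogeneousComponent_eq_zero _ _ hd, map_zero]
  · intro d m
    simp only [Gam, MvPolynomial.coeff_map]
    exact MvPolynomial.continuous_eval _
  · intro b s X
    rw [Ph_scale]
    have := key N M ℝ b X s
    simp only [Algebra.algebraMap_self, RingHom.id_apply] at this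
    rw [this]
    rfl
  · intro b Z w
    have h := key N M (Polynomial ℂ) b (Z.map Polynomial.C) Polynomial.X
    have e1 : (Polynomial.X : Polynomial ℂ) • Z.map Polynomial.C =
        Matrix.of fun i k => Polynomial.C (Z i k) * Polynomial.X := by
      ext i k : 2
      rw [Matrix.smul_apply, Matrix.map_apply, Matrix.of_apply, smul_eq_mul, mul_comm]
    have e2 : (fun α => algebraMap ℝ (Polynomial ℂ) (b α)) =
        fun α => Polynomial.C ((b α : ℝ) : ℂ) := by
      funext α
      rw [Polynomial.algebraMap_apply]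
      rfl
    rw [e1, e2] at h
    rw [h, Polynomial.finsetSum_coeff]
    have e3 : ∀ d, (Polynomial.X : Polynomial ℂ) ^ d * MvPolynomial.eval₂ (algebraMap ℝ (Polynomial ℂ))
        (fun ij => (Z.map Polynomial.C) ij.1 ij.2) (Gam N M d b) =
        Polynomial.C (evC (Gam N M d b) Z) * Polynomial.X ^ d := by
      intro d
      rw [mul_comm, evC, MvPolynomial.aeval_def]
      congr 1
      rw [MvPolynomial.eval₂_comp_left]
      rfl
    simp only [e3, Polynomial.coeff_C_mul_X_pow]
    rw [Finset.sum_ite_eq]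
    split_ifs with hw
    · rfl
    · rw [Finset.mem_range, not_lt] at hw
      rw [Gam, MvPolynomial.homogeneousComponent_eq_zero _ _ (by omega)]
      simp [evC]

end Pool.Agent.Helper30.LU
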